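import Pool.Agent.H5.TT.Stm

set_option autoImplicit false

open MeasureTheory

namespace Pool.Agent.H33.TT

open H5.TT

theorem rep_smul {k : ℕ} (z : Fin k → ℝ) (R : Fin k → R3) (l : ℝ) (hl : 0 < l) :
    rep z (fun j => l • R j) = rep z R / l := by
  unfold rep
  rw [Finset.sum_div]
  refine Finset.sum_congr rfl (fun i _ => ?_)
  rw [Finset.sum_div]
  refine Finset.sum_congr rfl (fun j _ => ?_)
  rw [← smul_sub, norm_smul, Real.norm_of_nonneg hl.le, div_div, mul_comm l]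

theorem t_BDD (hY : S_YNG) : S_BDD := by
  obtain ⟨C, hC0, hC⟩ := hY
  intro k z R hz lam hlam
  have hZ : 0 ≤ ∑ j, z j := Finset.sum_nonneg (fun j _ => hz j)
  set Z := ∑ j, z j with hZd
  have hε : 0 < 1 / (1 + Z) := by positivity
  refine ⟨Z * (C * (1 / (1 + Z)) ^ (-(3 / 2) : ℝ) + lam), ?_⟩
  intro l hl ϱ hϱ
  have h5 : ∫ x, ϱ x = lam := hϱ.2.2.2.2
  have hI : 0 ≤ ∫ x, ϱ x ^ (5 / 3 : ℝ) :=
    integral_nonneg (fun x => Real.rpow_nonneg (hϱ.2.1 x) _)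
  have hatt : att z R l ϱ ≤ Z * (3 / 5 * (1 / (1 + Z)) * ∫ x, ϱ x ^ (5 / 3 : ℝ)) +
      Z * (C * (1 / (1 + Z)) ^ (-(3 / 2) : ℝ) + lam) := by
    unfold att
    rw [← mul_add, hZd, Finset.sum_mul]
    refine Finset.sum_le_sum (fun j _ => mul_le_mul_of_nonneg_left ?_ (hz j))
    have := (hC lam ϱ hϱ (l • R j) (1 / (1 + Z)) hε).2
    rw [h5] at this
    linarith
  have hdd : 0 ≤ dd ϱ ϱ := by
    unfold dd
    exact integral_nonneg (fun p => div_nonneg (mul_nonneg (hϱ.2.1 _) (hϱ.2.1 _)) (norm_nonneg _))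
  have hk : Z * (3 / 5 * (1 / (1 + Z)) * ∫ x, ϱ x ^ (5 / 3 : ℝ)) ≤ kin ϱ := by
    unfold kin
    have h1 : Z * (1 / (1 + Z)) ≤ 1 := by
      rw [mul_one_div, div_le_one (by positivity)]
      linarith
    calc Z * (3 / 5 * (1 / (1 + Z)) * ∫ x, ϱ x ^ (5 / 3 : ℝ))
        = (Z * (1 / (1 + Z))) * (3 / 5 * ∫ x, ϱ x ^ (5 / 3 : ℝ)) := by ring
      _ ≤ 1 * (3 / 5 * ∫ x, ϱ x ^ (5 / 3 : ℝ)) :=
          mul_le_mul_of_nonneg_right h1 (by positivity)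
      _ = _ := one_mul _
  unfold tf
  rw [rep_smul z R l hl]
  linarith

end Pool.Agent.H33.TT
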